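import Pool.Agent.H741.RS.Stm

/-!
# Invariance of kernels (project RS of helper741, task KINV)
-/

set_option autoImplicit false
open scoped ComplexConjugate

namespace Pool.Agent.H92.RS

open Pool.Agent.H741.RS

theorem t_KINV (h1 : S_ADJ) : S_KINV := by
  intro n k G inst U c u hc hu hG z w
  obtain ⟨m, a, b, hab, hu⟩ := hu
  have hadj := h1 n k G inst U c hc
  have e1 : u (U z) (U w) = ∑ g : G, c g * u (g.1 z) (U w) := by
    have h2 : ∀ g : G, c g * u (g.1 z) (U w) =
        ∑ i, c g * ev (a i) (g.1 z) * conj (ev (b i) (U w)) := by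
      intro g
      rw [hu, Finset.mul_sum]
      exact Finset.sum_congr rfl fun i _ => by ring
    rw [hu, Finset.sum_congr rfl fun g _ => h2 g, Finset.sum_comm]
    refine Finset.sum_congr rfl fun i _ => ?_
    rw [hc (a i) (hab i).1 z, Finset.sum_mul]
  have e2 : ∀ g : G, u (g.1 z) (U w) = u z (g.1.symm (U w)) := by
    intro g
    have h3 := hG g.1 g.2 z (g.1.symm (U w))
    rwa [LinearIsometryEquiv.apply_symm_apply] at h3
  have h4 : ∀ g : G, c g * u (g.1 z) (U w) =
      ∑ i, ev (a i) z * (c g * conj (ev (b i) (g.1.symm (U w)))) := by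
    intro g
    rw [e2, hu, Finset.mul_sum]
    exact Finset.sum_congr rfl fun i _ => by ring
  rw [e1, Finset.sum_congr rfl fun g _ => h4 g, Finset.sum_comm, hu]
  refine Finset.sum_congr rfl fun i _ => ?_
  rw [← Finset.mul_sum]
  have h5 := congrArg conj (hadj (b i) (hab i).2 (U w))
  rw [LinearIsometryEquiv.symm_apply_apply, map_sum] at h5
  rw [h5]
  refine congrArg (fun t => ev (a i) z * t) (Finset.sum_congr rfl fun g _ => ?_)
  rw [map_mul, Complex.conj_conj]

end Pool.Agent.H92.RS
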